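import Pool.Agent.H23.PL.Targets

/-!
# Almost all numbers split

The scales are powers of x; outside the exceptional sets the part of r made of the primes up to
one of the scales is small and the other part is squarefree.
-/

set_option autoImplicit false

open Finset

namespace Pool.Agent.H35.PLD

open Pool.Agent.H23.PL

theorem mem_PR {u y : ℝ} (hu : 0 ≤ u) (hy : 0 ≤ y) {p : ℕ} :
    p ∈ PR u y ↔ (u < (p : ℝ) ∧ (p : ℝ) ≤ y) ∧ p.Prime := by
  unfold PR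
  rw [mem_filter, mem_Ioc, Nat.floor_lt hu, Nat.le_floor_iff hy]

theorem pt_ne_zero (B : Finset ℕ) (hB : ∀ p ∈ B, p.Prime) (r : ℕ) : pt B r ≠ 0 := by
  unfold pt
  rw [Finset.prod_ne_zero_iff]
  intro p hp
  exact pow_ne_zero _ (hB p hp).ne_zero

theorem fac_pt (B : Finset ℕ) (hB : ∀ p ∈ B, p.Prime) (r q : ℕ) :
    (pt B r).factorization q = if q ∈ B then r.factorization q else 0 := by
  unfold pt
  rw [Nat.factorization_prod (fun p hp => pow_ne_zero _ (hB p hp).ne_zero), Finsupp.finsetSum_apply]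
  have h1 : ∀ p ∈ B, (p ^ r.factorization p).factorization q =
      if p = q then r.factorization p else 0 := by
    intro p hp
    rw [(hB p hp).factorization_pow, Finsupp.single_apply]
  rw [Finset.sum_congr rfl h1, Finset.sum_ite_eq']

theorem pt_dvd (B : Finset ℕ) (hB : ∀ p ∈ B, p.Prime) (r : ℕ) (hr : r ≠ 0) : pt B r ∣ r := by
  rw [← Nat.factorization_le_iff_dvd (pt_ne_zero B hB r) hr]
  intro q
  rw [fac_pt B hB r q]
  split_ifs
  · exact le_refl _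
  · exact Nat.zero_le _

theorem not_dvd_quot (B : Finset ℕ) (hB : ∀ p ∈ B, p.Prime) (r n : ℕ) (hr : r ≠ 0)
    (h : r = pt B r * n) (p : ℕ) (hp : p ∈ B) : ¬ p ∣ n := by
  intro hd
  have hn : n ≠ 0 := by
    rintro rfl
    exact hr (by rw [h, mul_zero])
  have h1 : r.factorization p = (pt B r).factorization p + n.factorization p := by
    conv_lhs => rw [h]
    rw [Nat.factorization_mul (pt_ne_zero B hB r) hn]
    rfl
  rw [fac_pt B hB r p, if_pos hp] at h1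
  have h2 := (hB p hp).factorization_pos_of_dvd hn hd
  omega

theorem dvd_pt (B : Finset ℕ) (hB : ∀ p ∈ B, p.Prime) (r p : ℕ) (hr : r ≠ 0) (hp : p ∈ B)
    (hd : p ∣ r) : p ∣ pt B r := by
  have h1 := (hB p hp).factorization_pos_of_dvd hr hd
  unfold pt
  exact dvd_trans (dvd_pow_self p (by omega)) (Finset.dvd_prod_of_mem _ hp)

theorem pt_split (y' y : ℝ) (h0 : 0 ≤ y') (h : y' ≤ y) (r : ℕ) :
    pt (PR 0 y) r = pt (PR 0 y') r * pt (PR y' y) r := by
  have hd : Disjoint (PR 0 y') (PR y' y) := by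
    rw [Finset.disjoint_left]
    intro p hp hq
    rw [mem_PR le_rfl h0] at hp
    rw [mem_PR h0 (h0.trans h)] at hq
    linarith [hp.1.2, hq.1.1]
  have hu : PR 0 y = PR 0 y' ∪ PR y' y := by
    ext p
    rw [mem_union, mem_PR le_rfl (h0.trans h), mem_PR le_rfl h0, mem_PR h0 (h0.trans h)]
    constructor
    · rintro ⟨⟨h1, h2⟩, h3⟩
      by_cases hc : (p : ℝ) ≤ y'
      · exact Or.inl ⟨⟨h1, hc⟩, h3⟩
      · exact Or.inr ⟨⟨not_le.1 hc, h2⟩, h3⟩
    · rintro (⟨⟨h1, h2⟩, h3⟩ | ⟨⟨h1, h2⟩, h3⟩)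
      · exact ⟨⟨h1, h2.trans h⟩, h3⟩
      · exact ⟨⟨by linarith, h2⟩, h3⟩
  unfold pt
  rw [hu, Finset.prod_union hd]

theorem PR_prime (u y : ℝ) : ∀ p ∈ PR u y, p.Prime := by
  intro p hp
  unfold PR at hp
  exact (mem_filter.1 hp).2

/-- The deterministic part. -/
theorem core (x r : ℕ) (c : ℝ) (y y' yJ : ℝ) (hx : 1 ≤ x) (hr : r ∈ Icc 1 x)
    (hJ1 : 1 ≤ yJ) (hy'0 : 0 ≤ y') (hJy : yJ ≤ y) (hy' : y' ≤ y) (hyx : y ≤ x)
    (hbig : (x : ℝ) ^ (1 / 2 : ℝ) < r) (hgd : Gd y (pt (PR y' y) r))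
    (hsm : (pt (PR 0 y') r : ℝ) ≤ y ^ (1 / 4 : ℝ))
    (hp : ∃ p ∈ PR ((x : ℝ) ^ c) yJ, p ∣ r)
    (hsq : ¬ ∃ p : ℕ, p.Prime ∧ yJ < p ∧ p ^ 2 ∣ r) : Spl c x r := by
  have hr0 : r ≠ 0 := by
    rw [mem_Icc] at hr
    omega
  have hy1 : 1 ≤ y := hJ1.trans hJy
  have hy0 : 0 < y := by linarith
  have hpr := PR_prime 0 y
  obtain ⟨n, hn⟩ := pt_dvd (PR 0 y) hpr r hr0
  set m : ℕ := pt (PR 0 y) r with hm
  have hm0 : m ≠ 0 := pt_ne_zero _ hpr r
  have hmle : (m : ℝ) ≤ y ^ (1 / 2 : ℝ) := by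
    have e1 : (m : ℝ) = (pt (PR 0 y') r : ℝ) * (pt (PR y' y) r : ℝ) := by
      rw [hm, pt_split y' y hy'0 hy' r]
      push_cast
      ring
    rw [e1]
    calc (pt (PR 0 y') r : ℝ) * (pt (PR y' y) r : ℝ) ≤ y ^ (1 / 4 : ℝ) * y ^ (1 / 4 : ℝ) :=
          mul_le_mul hsm hgd.2 (Nat.cast_nonneg _) (by positivity)
      _ = y ^ (1 / 2 : ℝ) := by
          rw [← Real.rpow_add hy0]
          norm_num
  have hyle : y ^ (1 / 2 : ℝ) ≤ (x : ℝ) ^ (1 / 2 : ℝ) :=
    Real.rpow_le_rpow hy0.le hyx (by norm_num)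
  have hmr : m < r := by
    have : (m : ℝ) < r := by linarith
    exact_mod_cast this
  have hn1 : 1 < n := by
    rcases Nat.lt_or_ge 1 n with h | h
    · exact h
    · exfalso
      have h2 : m * n ≤ m * 1 := Nat.mul_le_mul_left m h
      omega
  have hm2 : (m : ℝ) ^ 2 ≤ y := by
    calc (m : ℝ) ^ 2 ≤ (y ^ (1 / 2 : ℝ)) ^ 2 := by gcongr
      _ = y := by
          rw [← Real.rpow_natCast, ← Real.rpow_mul hy0.le]
          norm_num
  have hbigp : ∀ p : ℕ, p.Prime → p ∣ n → y < p := by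
    intro p hpp hpn
    by_contra hc
    have hmem : p ∈ PR 0 y := by
      rw [mem_PR le_rfl hy0.le]
      exact ⟨⟨by exact_mod_cast hpp.pos, not_lt.1 hc⟩, hpp⟩
    exact not_dvd_quot (PR 0 y) hpr r n hr0 hn p hmem hpn
  refine ⟨m, n, hn, ?_, hn1, ?_, ?_⟩
  · obtain ⟨p, hpm, hpr'⟩ := hp
    rw [mem_PR (by positivity) (by linarith)] at hpm
    have hmem : p ∈ PR 0 y := by
      rw [mem_PR le_rfl hy0.le]
      exact ⟨⟨by exact_mod_cast hpm.2.pos, hpm.1.2.trans hJy⟩, hpm.2⟩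
    have h1 : p ∣ m := dvd_pt (PR 0 y) hpr r p hr0 hmem hpr'
    have h2 : p ≤ m := Nat.le_of_dvd (Nat.pos_of_ne_zero hm0) h1
    have h3 : (p : ℝ) ≤ m := by exact_mod_cast h2
    linarith [hpm.1.1]
  · rw [Nat.squarefree_iff_prime_squarefree]
    intro p hpp hpn
    have h1 : p ∣ n := dvd_trans (dvd_mul_right p p) hpn
    have h2 := hbigp p hpp h1
    refine hsq ⟨p, hpp, by linarith, ?_⟩
    rw [hn, pow_two]
    exact dvd_mul_of_dvd_right hpn m
  · intro p hpp hpn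
    have h2 := hbigp p hpp hpn
    have h3 : (m : ℝ) ^ 2 < (p : ℝ) := by linarith
    exact_mod_cast h3

theorem card_small (x : ℕ) (Y : ℝ) (hY : 0 ≤ Y) :
    (((Icc 1 x).filter fun r : ℕ => (r : ℝ) ≤ Y).card : ℝ) ≤ Y := by
  have h1 : ((Icc 1 x).filter fun r : ℕ => (r : ℝ) ≤ Y) ⊆ Icc 1 ⌊Y⌋₊ := by
    intro r hr
    rw [mem_filter, mem_Icc] at hr
    rw [mem_Icc]
    exact ⟨hr.1.1, Nat.le_floor hr.2⟩
  have h2 := card_le_card h1
  rw [Nat.card_Icc, Nat.add_sub_cancel] at h2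
  calc (((Icc 1 x).filter fun r : ℕ => (r : ℝ) ≤ Y).card : ℝ) ≤ (⌊Y⌋₊ : ℝ) := by exact_mod_cast h2
    _ ≤ Y := Nat.floor_le hY

open Classical in
/-- The union bound. -/
theorem union_bd (x J : ℕ) (c : ℝ) (y : ℕ → ℝ) (hx : 1 ≤ x) (hJ1 : 1 ≤ y J)
    (hanti : ∀ j, j < J → y J ≤ y j) (hstep : ∀ j, y (j + 1) ≤ y j) (hpos : ∀ j, 0 ≤ y j)
    (hyx : ∀ j, y j ≤ x) :
    (((Icc 1 x).filter fun r => ¬ Spl c x r).card : ℝ) ≤
      (((Icc 1 x).filter fun r : ℕ => (r : ℝ) ≤ (x : ℝ) ^ (1 / 2 : ℝ)).card : ℝ) +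
      (((Icc 1 x).filter fun r => ∀ j, j < J →
        ¬ Gd (y j) (pt (PR (y (j + 1)) (y j)) r)).card : ℝ) +
      ∑ j ∈ range J, (((Icc 1 x).filter fun r =>
        y j ^ (1 / 4 : ℝ) < (pt (PR 0 (y (j + 1))) r : ℝ)).card : ℝ) +
      (((Icc 1 x).filter fun r => ∀ p ∈ PR ((x : ℝ) ^ c) (y J), ¬ p ∣ r).card : ℝ) +
      (((Icc 1 x).filter fun r => ∃ p : ℕ, p.Prime ∧ y J < p ∧ p ^ 2 ∣ r).card : ℝ) := by
  set E1 := (Icc 1 x).filter fun r : ℕ => (r : ℝ) ≤ (x : ℝ) ^ (1 / 2 : ℝ) with hE1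
  set E2 := (Icc 1 x).filter fun r => ∀ j, j < J →
        ¬ Gd (y j) (pt (PR (y (j + 1)) (y j)) r) with hE2
  set E3 : ℕ → Finset ℕ := fun j => (Icc 1 x).filter fun r =>
        y j ^ (1 / 4 : ℝ) < (pt (PR 0 (y (j + 1))) r : ℝ) with hE3
  set E4 := (Icc 1 x).filter fun r => ∀ p ∈ PR ((x : ℝ) ^ c) (y J), ¬ p ∣ r with hE4
  set E5 := (Icc 1 x).filter fun r => ∃ p : ℕ, p.Prime ∧ y J < p ∧ p ^ 2 ∣ r with hE5
  have hsub : ((Icc 1 x).filter fun r => ¬ Spl c x r) ⊆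
      (((E1 ∪ E2) ∪ (range J).biUnion E3) ∪ E4) ∪ E5 := by
    intro r hr
    rw [mem_filter] at hr
    by_contra hc
    simp only [mem_union, not_or] at hc
    obtain ⟨⟨⟨⟨n1, n2⟩, n3⟩, n4⟩, n5⟩ := hc
    rw [hE1, mem_filter, not_and, not_le] at n1
    rw [hE2, mem_filter, not_and] at n2
    rw [mem_biUnion] at n3
    rw [hE4, mem_filter, not_and] at n4
    rw [hE5, mem_filter, not_and] at n5
    have m1 := n1 hr.1
    have m2 := n2 hr.1
    have m4 := n4 hr.1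
    have m5 := n5 hr.1
    push Not at m2
    obtain ⟨j, hj, hg⟩ := m2
    push Not at m4
    have m3 : (pt (PR 0 (y (j + 1))) r : ℝ) ≤ y j ^ (1 / 4 : ℝ) := by
      by_contra h
      exact n3 ⟨j, mem_range.2 hj, by rw [hE3, mem_filter]; exact ⟨hr.1, not_le.1 h⟩⟩
    exact hr.2 (core x r c (y j) (y (j + 1)) (y J) hx hr.1 hJ1 (hpos _) (hanti j hj) (hstep j)
      (hyx j) m1 hg m3 m4 m5)
  have h1 := card_le_card hsub
  have h2 := card_union_le (((E1 ∪ E2) ∪ (range J).biUnion E3) ∪ E4) E5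
  have h3 := card_union_le ((E1 ∪ E2) ∪ (range J).biUnion E3) E4
  have h4 := card_union_le (E1 ∪ E2) ((range J).biUnion E3)
  have h5 := card_union_le E1 E2
  have h6 : ((range J).biUnion E3).card ≤ ∑ j ∈ range J, (E3 j).card := card_biUnion_le
  have h7 : ((Icc 1 x).filter fun r => ¬ Spl c x r).card ≤
      E1.card + E2.card + ∑ j ∈ range J, (E3 j).card + E4.card + E5.card := by omega
  exact_mod_cast h7

open Classical in
theorem pf_DEN (hSMO : T_SMO) (hSQF : T_SQF) (hNOF : T_NOF) (hNGD : T_NGD) : T_DEN := by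
  intro η hη
  obtain ⟨C₁, hC₁, h1⟩ := hSMO
  obtain ⟨C₂, hC₂, h2⟩ := hNOF
  obtain ⟨C₃, c₁, y₀, hC₃, hc₁, hc₁', h3⟩ := hNGD
  obtain ⟨J, hJ⟩ : ∃ J : ℕ, C₃ * (1 - c₁) ^ J ≤ η / 10 := by
    obtain ⟨J, hJ⟩ := exists_pow_lt_of_lt_one (show 0 < η / 10 / C₃ by positivity)
      (show 1 - c₁ < 1 by linarith)
    refine ⟨J, ?_⟩
    rw [lt_div_iff₀ hC₃] at hJ
    linarith
  obtain ⟨lam, hl0, hl1, hl2, hl3, hl4⟩ : ∃ lam : ℝ, 0 < lam ∧ lam ≤ 1 / 16 ∧
      C₃ * lam ≤ η / 10 ∧ 4 * J * lam ≤ η / 10 ∧ C₂ * lam ≤ η / 10 := by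
    have hD : 0 < C₃ + 4 * J + C₂ := by positivity
    refine ⟨min (1 / 16) (η / 10 / (C₃ + 4 * J + C₂)), by positivity, min_le_left _ _, ?_⟩
    set lam := min (1 / 16 : ℝ) (η / 10 / (C₃ + 4 * J + C₂)) with hlam
    have h0 : 0 < lam := by positivity
    have h4 : lam ≤ η / 10 / (C₃ + 4 * J + C₂) := min_le_right _ _
    rw [le_div_iff₀ hD] at h4
    have hJ0 : (0 : ℝ) ≤ J := Nat.cast_nonneg J
    refine ⟨?_, ?_, ?_⟩
    · nlinarith [mul_nonneg hJ0 h0.le, mul_pos hC₂ h0]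
    · nlinarith [mul_pos hC₃ h0, mul_pos hC₂ h0]
    · nlinarith [mul_nonneg hJ0 h0.le, mul_pos hC₃ h0]
  set s : ℝ := lam ^ (J + 1) with hs
  have hs0 : 0 < s := by positivity
  have hsl : s ≤ lam := by
    rw [hs]
    calc lam ^ (J + 1) ≤ lam ^ 1 := pow_le_pow_of_le_one hl0.le (by linarith) (by omega)
      _ = lam := pow_one _
  set c : ℝ := min s (s * (η / 10) / C₂) with hc
  have hc0 : 0 < c := by positivity
  have hcs : c ≤ s := min_le_left _ _
  have hc2 : C₂ * (c / s) ≤ η / 10 := by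
    have : c ≤ s * (η / 10) / C₂ := min_le_right _ _
    rw [le_div_iff₀ hC₂] at this
    rw [← mul_div_assoc, div_le_iff₀ hs0]
    linarith
  have hev : ∀ᶠ x : ℕ in Filter.atTop, 1 ≤ x ∧ 10 / η ≤ (x : ℝ) ^ (1 / 2 : ℝ) ∧
      (40 * J * C₁ / (η * s) + 10 * C₂ / η + 1) ≤ Real.log x ∧
      (max y₀ (2 + 20 / η)) ≤ (x : ℝ) ^ s ∧ 2 ≤ (x : ℝ) ^ c := by
    have ht : Filter.Tendsto (fun x : ℕ => (x : ℝ)) Filter.atTop Filter.atTop :=
      tendsto_natCast_atTop_atTop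
    have e1 := ((tendsto_rpow_atTop (show (0 : ℝ) < 1 / 2 by norm_num)).comp ht).eventually_ge_atTop
      (10 / η)
    have e2 := (Real.tendsto_log_atTop.comp ht).eventually_ge_atTop
      (40 * J * C₁ / (η * s) + 10 * C₂ / η + 1)
    have e3 := ((tendsto_rpow_atTop hs0).comp ht).eventually_ge_atTop (max y₀ (2 + 20 / η))
    have e4 := ((tendsto_rpow_atTop hc0).comp ht).eventually_ge_atTop 2
    filter_upwards [Filter.eventually_ge_atTop 1, e1, e2, e3, e4] with x a0 a1 a2 a3 a4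
    exact ⟨a0, a1, a2, a3, a4⟩
  obtain ⟨X, hX⟩ := Filter.eventually_atTop.1 hev
  refine ⟨c, X, hc0, by linarith, fun x hx => ?_⟩
  obtain ⟨hx1, hxh, hxl, hxs, hxc⟩ := hX x hx
  have hx1r : (1 : ℝ) ≤ (x : ℝ) := by exact_mod_cast hx1
  have hx0 : (0 : ℝ) < (x : ℝ) := by linarith
  set l : ℝ := Real.log x with hl
  have hl1' : 1 ≤ l := by
    have t1 : 0 ≤ 40 * J * C₁ / (η * s) := by positivity
    have t2 : 0 ≤ 10 * C₂ / η := by positivity
    linarith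
  have hlpos : 0 < l := by linarith
  have hlJ : 4 * J * (C₁ / (s * l)) ≤ η / 10 := by
    have t2 : 0 ≤ 10 * C₂ / η := by positivity
    have t1 : 40 * J * C₁ / (η * s) ≤ l := by linarith
    rw [div_le_iff₀ (by positivity)] at t1
    have : 4 * (J : ℝ) * (C₁ / (s * l)) = (4 * J * C₁) / (s * l) := by ring
    rw [this, div_le_iff₀ (by positivity)]
    nlinarith
  have hlC : C₂ * (1 / l) ≤ η / 10 := by
    have t1 : 0 ≤ 40 * J * C₁ / (η * s) := by positivity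
    have t2 : 10 * C₂ / η ≤ l := by linarith
    rw [div_le_iff₀ hη] at t2
    rw [mul_one_div, div_le_iff₀ hlpos]
    linarith
  set y : ℕ → ℝ := fun j => (x : ℝ) ^ (lam ^ (j + 1)) with hy
  have hypos : ∀ j, 0 < y j := fun j => by
    rw [hy]
    positivity
  have hy1 : ∀ j, 1 ≤ y j := fun j => Real.one_le_rpow hx1r (by positivity)
  have hyanti : ∀ i j, i ≤ j → y j ≤ y i := by
    intro i j hij
    apply Real.rpow_le_rpow_of_exponent_le hx1r
    exact pow_le_pow_of_le_one hl0.le (by linarith) (by omega)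
  have hyx : ∀ j, y j ≤ x := by
    intro j
    calc y j ≤ (x : ℝ) ^ (1 : ℝ) := by
          apply Real.rpow_le_rpow_of_exponent_le hx1r
          exact pow_le_one₀ hl0.le (by linarith)
      _ = x := Real.rpow_one _
  have hlogy : ∀ j, Real.log (y j) = lam ^ (j + 1) * l := fun j => Real.log_rpow hx0 _
  have hysucc : ∀ j, y (j + 1) ≤ y j ^ (1 / 16 : ℝ) := by
    intro j
    have : y (j + 1) = y j ^ lam := by
      simp only [hy]
      rw [← Real.rpow_mul hx0.le, ← pow_succ]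
    rw [this]
    exact Real.rpow_le_rpow_of_exponent_le (hy1 j) hl1
  have hyJ : y J = (x : ℝ) ^ s := rfl
  have hyJ0 : y₀ ≤ y J := by
    rw [hyJ]
    exact (le_max_left _ _).trans hxs
  have hyJ2 : 2 + 20 / η ≤ y J := by
    rw [hyJ]
    exact (le_max_right _ _).trans hxs
  have h20 : 0 < 20 / η := by positivity
  have hbd := union_bd x J c y hx1 (hy1 J) (fun j hj => hyanti j J hj.le)
    (fun j => hyanti j (j + 1) (by omega)) (fun j => (hypos j).le) hyx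
  refine hbd.trans ?_
  -- the five counts
  have g1 : (((Icc 1 x).filter fun r : ℕ => (r : ℝ) ≤ (x : ℝ) ^ (1 / 2 : ℝ)).card : ℝ) ≤
      η / 10 * x := by
    refine (card_small x _ (by positivity)).trans ?_
    have e : (x : ℝ) = (x : ℝ) ^ (1 / 2 : ℝ) * (x : ℝ) ^ (1 / 2 : ℝ) := by
      rw [← Real.rpow_add hx0]
      norm_num
    rw [div_le_iff₀ hη] at hxh
    have hp : 0 < (x : ℝ) ^ (1 / 2 : ℝ) := by positivity
    calc (x : ℝ) ^ (1 / 2 : ℝ) = 1 / 10 * (10 * (x : ℝ) ^ (1 / 2 : ℝ)) := by ring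
      _ ≤ 1 / 10 * (((x : ℝ) ^ (1 / 2 : ℝ) * η) * (x : ℝ) ^ (1 / 2 : ℝ)) := by gcongr
      _ = η / 10 * ((x : ℝ) ^ (1 / 2 : ℝ) * (x : ℝ) ^ (1 / 2 : ℝ)) := by ring
      _ = η / 10 * x := by rw [← e]
  have g2 : (((Icc 1 x).filter fun r => ∀ j, j < J →
        ¬ Gd (y j) (pt (PR (y (j + 1)) (y j)) r)).card : ℝ) ≤ 2 * (η / 10) * x := by
    have h4 := h3 J x y (fun j hj => hyJ0.trans (hyanti j J hj)) (fun j _ => hysucc j) (hyx 0)
    rw [hlogy 0, zero_add, pow_one, ← hl] at h4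
    have h5 : C₃ * x * (lam * l + (1 - c₁) ^ J * l) =
        ((C₃ * lam + C₃ * (1 - c₁) ^ J) * x) * l := by ring
    rw [h5] at h4
    refine (le_of_mul_le_mul_right h4 hlpos).trans ?_
    have : C₃ * lam + C₃ * (1 - c₁) ^ J ≤ 2 * (η / 10) := by linarith
    exact mul_le_mul_of_nonneg_right this hx0.le
  have g3 : ∑ j ∈ range J, (((Icc 1 x).filter fun r =>
        y j ^ (1 / 4 : ℝ) < (pt (PR 0 (y (j + 1))) r : ℝ)).card : ℝ) ≤ 2 * (η / 10) * x := by
    have h4 : ∀ j ∈ range J, (((Icc 1 x).filter fun r =>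
        y j ^ (1 / 4 : ℝ) < (pt (PR 0 (y (j + 1))) r : ℝ)).card : ℝ) ≤
        4 * x * (lam + C₁ / (s * l)) := by
      intro j hj
      rw [mem_range] at hj
      have hyj : 1 < y j := by
        have := hyanti j J hj.le
        linarith
      have h5 := h1 x (y (j + 1)) (y j ^ (1 / 4 : ℝ)) (hy1 _)
        (Real.one_lt_rpow hyj (by norm_num))
      rw [Real.log_rpow (hypos j), hlogy, hlogy] at h5
      set w : ℝ := lam ^ (j + 1) * l with hw
      have hwpos : 0 < w := by positivity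
      have hws : s * l ≤ w := by
        rw [hw, hs]
        apply mul_le_mul_of_nonneg_right _ hlpos.le
        exact pow_le_pow_of_le_one hl0.le (by linarith) (by omega)
      have e1 : lam ^ (j + 1 + 1) * l = lam * w := by
        rw [hw]
        ring
      rw [e1] at h5
      have h6 : (((Icc 1 x).filter fun r =>
          y j ^ (1 / 4 : ℝ) < (pt (PR 0 (y (j + 1))) r : ℝ)).card : ℝ) * w ≤
          (4 * x * (lam + C₁ / w)) * w := by
        have e2 : (4 * (x : ℝ) * (lam + C₁ / w)) * w = 4 * (x * (lam * w + C₁)) := by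
          field_simp
        rw [e2]
        linarith
      refine (le_of_mul_le_mul_right h6 hwpos).trans ?_
      have h7 : C₁ / w ≤ C₁ / (s * l) := div_le_div_of_nonneg_left hC₁.le (by positivity) hws
      have h8 : 0 ≤ 4 * (x : ℝ) := by positivity
      exact mul_le_mul_of_nonneg_left (by linarith) h8
    refine (Finset.sum_le_sum h4).trans ?_
    rw [Finset.sum_const, card_range, nsmul_eq_mul]
    have e3 : (J : ℝ) * (4 * x * (lam + C₁ / (s * l))) =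
        (4 * J * lam + 4 * J * (C₁ / (s * l))) * x := by ring
    rw [e3]
    exact mul_le_mul_of_nonneg_right (by linarith) hx0.le
  have g4 : (((Icc 1 x).filter fun r => ∀ p ∈ PR ((x : ℝ) ^ c) (y J), ¬ p ∣ r).card : ℝ) ≤
      3 * (η / 10) * x := by
    have hzy : (x : ℝ) ^ c ≤ y J := by
      rw [hyJ]
      exact Real.rpow_le_rpow_of_exponent_le hx1r hcs
    have h4 := h2 x ((x : ℝ) ^ c) (y J) hxc hzy (hyx J)
    rw [hlogy J, Real.log_rpow hx0, ← hs, ← hl] at h4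
    have e1 : C₂ * x * (1 + s * l + c * l * l / (s * l)) =
        ((C₂ * (1 / l) + C₂ * s + C₂ * (c / s)) * x) * l := by
      field_simp
    rw [e1] at h4
    refine (le_of_mul_le_mul_right h4 hlpos).trans ?_
    have h5 : C₂ * s ≤ η / 10 := (mul_le_mul_of_nonneg_left hsl hC₂.le).trans hl4
    exact mul_le_mul_of_nonneg_right (by linarith) hx0.le
  have g5 : (((Icc 1 x).filter fun r => ∃ p : ℕ, p.Prime ∧ y J < p ∧ p ^ 2 ∣ r).card : ℝ) ≤
      η / 10 * x := by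
    refine (hSQF x (y J) (hy1 J)).trans ?_
    rw [div_le_iff₀ (hypos J)]
    have h6 : 20 / η ≤ y J := by linarith
    rw [div_le_iff₀ hη] at h6
    calc 2 * (x : ℝ) = x * (1 / 10) * 20 := by ring
      _ ≤ x * (1 / 10) * (y J * η) := by gcongr
      _ = η / 10 * x * y J := by ring
  have hfin : 0 ≤ η / 10 * x := by positivity
  linarith

end Pool.Agent.H35.PLD
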